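import Pool.Agent.Y485.HS.Stm

/-!
A measurable set has unique derivatives at almost all of its points.
-/

set_option autoImplicit false

open MeasureTheory Set Metric Filter Topology
open scoped ENNReal NNReal Pointwise

namespace Pool.Agent.Y988.HS

open Pool.Agent.Y485.HS

/-- J2a -/
theorem ud : S_UD := by
  intro n S hS
  filter_upwards [Besicovitch.ae_tendsto_measure_inter_div volume S, ae_restrict_mem hS] with x hx hxS
  have key : tangentConeAt ℝ S x = univ := by
    rw [eq_univ_iff_forall]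
    intro z
    have h1 : ∀ k : ℕ, ∃ r : ℝ, 0 < r ∧ r < 1 / ((k : ℝ) + 1) ∧ ∃ w : E n,
        ‖w - z‖ ≤ 1 / ((k : ℝ) + 1) ∧ x + r • w ∈ S := by
      intro k
      have hk : (0 : ℝ) < 1 / ((k : ℝ) + 1) := by positivity
      have h2 := Measure.eventually_nonempty_inter_smul_of_density_one volume S x hx
        (closedBall z (1 / ((k : ℝ) + 1))) measurableSet_closedBall
        (measure_closedBall_pos _ _ hk).ne'
      have h3 : ∀ᶠ r in 𝓝[>] (0 : ℝ), r < 1 / ((k : ℝ) + 1) :=
        mem_nhdsWithin_of_mem_nhds (Iio_mem_nhds hk)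
      have h4 : ∀ᶠ r in 𝓝[>] (0 : ℝ), 0 < r := self_mem_nhdsWithin
      obtain ⟨r, ⟨y, hyS, hy⟩, h5, h6⟩ := (h2.and (h3.and h4)).exists
      rw [singleton_add, mem_image] at hy
      obtain ⟨u, hu, rfl⟩ := hy
      obtain ⟨w, hw, rfl⟩ := mem_smul_set.1 hu
      refine ⟨r, h6, h5, w, ?_, hyS⟩
      rwa [mem_closedBall, dist_eq_norm] at hw
    choose r hr0 hr1 w hw hS' using h1
    have hlim : Tendsto (fun k : ℕ => 1 / ((k : ℝ) + 1)) atTop (𝓝 0) :=
      tendsto_one_div_add_atTop_nhds_zero_nat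
    have hwz : Tendsto w atTop (𝓝 z) := by
      rw [tendsto_iff_norm_sub_tendsto_zero]
      exact squeeze_zero (fun k => norm_nonneg _) hw hlim
    have hr : Tendsto r atTop (𝓝 0) :=
      squeeze_zero (fun k => (hr0 k).le) (fun k => (hr1 k).le) hlim
    refine mem_tangentConeAt_of_seq atTop (fun k => (r k)⁻¹) (fun k => r k • w k) ?_
      (Eventually.of_forall hS') ?_
    · have := hr.smul hwz
      rwa [zero_smul] at this
    · refine hwz.congr fun k => ?_
      rw [smul_smul, inv_mul_cancel₀ (hr0 k).ne', one_smul]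
  refine ⟨?_, subset_closure hxS⟩
  rw [key, Submodule.span_univ, Submodule.top_coe]
  exact dense_univ

end Pool.Agent.Y988.HS
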